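import Pool.Agent.Helper60.KS.St

/-! Project KS: general cell length `2^e`, `e = ⌊k (1/2 + w - d)⌋`; height exponent `τ = 1/2 - w`, `κ = 1/τ`. -/

set_option autoImplicit false
open Filter Topology MeasureTheory
open scoped Classical

namespace Pool.Agent.Helper60.KS

/-- detection with height exponent `τ` -/
def DetectG : Prop := ∀ τ δ d : ℝ, 1/4 ≤ τ → τ ≤ 1/2 → 0 < δ → δ ≤ 1/1000 → 0 < d → d ≤ δ →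
  ∃ X0 : ℝ, ∀ X x : ℝ, X0 ≤ X → 0 < x →
  x ≤ 0.4 + δ → ∃ g : ℕ → ℂ, (∀ n, ‖g n‖ ≤ (n.divisors.card : ℝ)) ∧
  ∀ ρ : ℂ, riemannZeta ρ = 0 → 1 - x ≤ ρ.re → Real.log X ^ 2 ≤ |ρ.im| → |ρ.im| ≤ X ^ (τ + 2 * d) + 1 →
  ∃ i : ℕ, X ^ δ / 2 ≤ (2 : ℝ) ^ i ∧ (2 : ℝ) ^ i ≤ X ^ (yy x * τ + 45 * δ) ∧
    1 / (16 * Real.log X) ≤ ‖DP g (2 ^ i) 2 ρ‖

/-- section 7 with `X = T^κ` -/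
def NumericG (κ ρ0 : ℝ) : Prop := ∀ ε0 : ℝ, 0 < ε0 → ε0 ≤ 1/100 → ∀ ε x n r ϱ : ℝ, 0 < ε → ε ≤ ε0 / 10 ^ 5 →
  ε0 ≤ x → x ≤ 0.4 + ε → 0 < n → n ≤ yy x + ε →
  (∀ k : ℕ, 1 ≤ k → (k : ℝ) ≤ 4 / n → r ≤ max (2 * x * (k * n)) (1 - k * n * (1 - 2 * x)) + ε) →
  (∀ k : ℕ, 1 ≤ k → (k : ℝ) ≤ 4 / n → r ≤ max (2 * x * (k * n)) (1 - k * n * (2 - 6 * x)) + ε) →
  κ * x - ε ≤ r →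
  (∀ j : ℕ, 1 ≤ j → (j : ℝ) ≤ 4 / n → r + 2 * x * (j * n) ≤ 2 * κ * x - ε →
    ϱ ≤ max (1 + r - 2 * κ * x - j * n * (1 - 2 * x)) (4 * (1 + r - 2 * κ * x - j * n * (1 - 2 * x)) - 1) + ε) →
  (∀ j : ℕ, 1 ≤ j → (j : ℝ) ≤ 4 / n →
    ϱ ≤ 1 - 4 * κ * x + max (4 * x * (j * n) + r) (1 + 2 * r - (2 - 4 * x) * (j * n)) + ε) →
  ϱ ≤ ρ0

/-- one class, height exponent `τ`; `δ = ε0 / 10^8` -/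
def ClassBoundG (τ ρ0 : ℝ) : Prop := ∀ ε0 δ d : ℝ, 0 < ε0 → ε0 ≤ 1/100 → δ = ε0 / 10 ^ 8 → 0 < d → d ≤ δ → ∃ X0 : ℝ,
  ∀ (X x : ℝ) (Z : Finset ℂ) (c : ℂ → ℂ) (g : ℕ → ℂ) (N : ℕ) (U : Finset ℝ), X0 ≤ X → ε0 ≤ x → x ≤ 0.4 + δ →
  InStrip Z (1 - x) (1 - x + δ) (X ^ (τ + 2 * d) + 1) → Spaced1 Z →
  (∀ n, ‖g n‖ ≤ (n.divisors.card : ℝ)) →
  X ^ δ / 2 ≤ N → (N : ℝ) ≤ X ^ (yy x * τ + 45 * δ) → (∀ ρ ∈ Z, 1 / (16 * Real.log X) ≤ ‖DP g N 2 ρ‖) →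
  (∀ ρ ∈ Z, ‖c ρ‖ ≤ Real.log X ^ 2) → (∀ u ∈ U, Real.log X ≤ u ∧ u ≤ Real.log X + 1) →
  SpacedR U (1 / X ^ (τ + 2 * d)) →
  (∀ u ∈ U, 1 / Real.log X ^ 4 ≤ ‖∑ ρ ∈ Z, c ρ * Complex.exp ((ρ - 1) * (u : ℂ))‖) →
  (U.card : ℝ) ≤ X ^ (τ * ρ0)

/-- exponent of the cell length -/
noncomputable def ecw (w d : ℝ) (k : ℕ) : ℕ := ⌊(k : ℝ) * (1/2 + w - d)⌋₊

/-- explicit formula for cells of length `2^(ecw w d k)` (section 4) -/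
def BadZeroG (w : ℝ) : Prop := ∀ d : ℝ, 0 < d → d ≤ 1/100 → ∃ c0 : ℝ, 0 < c0 ∧ ∃ K : ℕ, ∀ k : ℕ, K ≤ k →
  ∃ (F : Finset ℂ) (c : ℂ → ℂ) (u : ℕ → ℝ) (Exc : Finset ℕ),
  (∀ ρ ∈ F, riemannZeta ρ = 0 ∧ 0.6 < ρ.re ∧ |ρ.im| ≤ ((2 : ℝ) ^ k) ^ (1/2 - w + 2 * d) + 1) ∧
  (∀ ρ ∈ F, ‖c ρ‖ ≤ 2) ∧
  (∀ j < 2 ^ (k - ecw w d k), Real.log (2 ^ k) ≤ u j ∧ u j ≤ Real.log (2 ^ k) + 1) ∧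
  (∀ j < 2 ^ (k - ecw w d k), ∀ j' < 2 ^ (k - ecw w d k), j ≠ j' →
    1 / ((2 : ℝ) ^ k) ^ (1/2 - w + 2 * d) ≤ |u j - u j'|) ∧
  (Exc.card : ℝ) ≤ ((2 : ℝ) ^ k) ^ (0.21 - 2 * w + 5 * d) ∧
  ∀ j < 2 ^ (k - ecw w d k), j ∉ Exc → (npr k (ecw w d k) j : ℝ) < c0 * 2 ^ ecw w d k / k →
    1/2 ≤ ‖∑ ρ ∈ F, (mz ρ : ℂ) * c ρ * Complex.exp ((ρ - 1) * (u j : ℂ))‖

/-- at most `2^(U k)` cells of length `2^⌊k(1/2+w-d)⌋` of `[2^k, 2^(k+1))` contain fewer than `c0 2^e / k` primes -/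
def CountW (w U : ℝ) : Prop := ∃ d0 : ℝ, 0 < d0 ∧ ∀ d : ℝ, 0 < d → d ≤ d0 → ∃ c0 : ℝ, 0 < c0 ∧ ∃ K : ℕ, ∀ k : ℕ,
  K ≤ k → (((Finset.range (2 ^ (k - ecw w d k))).filter (fun j =>
    (npr k (ecw w d k) j : ℝ) < c0 * 2 ^ ecw w d k / k)).card : ℝ) ≤ (2 : ℝ) ^ (U * (k : ℝ))

end Pool.Agent.Helper60.KS
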