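import Pool.Agent.Helper60.KS.StG

/-! Project KS, design D5: counting of the cells without numbers `q m`, `m` prime of size `X^0.495` (CountE2). -/

set_option autoImplicit false
open Filter Topology MeasureTheory
open scoped Classical

namespace Pool.Agent.Helper60.KS

/-- `M = 2^(em k)`, about `X^0.495` for `X = 2^k` -/
def em (k : ℕ) : ℕ := 99 * k / 200

/-- the prime multipliers: primes in `(M, 2M]`, `M = 2^(em k)` -/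
noncomputable def PM (k : ℕ) : Finset ℕ := (Finset.Ioc (2 ^ em k) (2 * 2 ^ em k)).filter Nat.Prime

/-- sum of the reciprocals -/
noncomputable def S1 (k : ℕ) : ℝ := ∑ m ∈ PM k, 1 / (m : ℝ)

/-- indicator function of the primes -/
noncomputable def gP (n : ℕ) : ℂ := if n.Prime then 1 else 0

/-- number of pairs `(m, q)`, `q` prime, `m ∈ PM k`, `m q` in the `j`-th cell of length `2^e` of `[2^k, 2^(k+1))` -/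
noncomputable def nE2 (k e j : ℕ) : ℕ :=
  ((PM k ×ˢ Finset.range (2 ^ (k + 1))).filter (fun p => p.2.Prime ∧ 2 ^ k + j * 2 ^ e ≤ p.1 * p.2 ∧
    p.1 * p.2 < 2 ^ k + (j + 1) * 2 ^ e)).card

/-- **CountE2**: at most `2^(U k)` cells of length `2^⌊k(1/2-d)⌋` contain fewer than `c0 2^e / k^2` numbers `q m` -/
def CountE2 (U : ℝ) : Prop := ∃ d0 : ℝ, 0 < d0 ∧ ∀ d : ℝ, 0 < d → d ≤ d0 → ∃ c0 : ℝ, 0 < c0 ∧ ∃ K : ℕ, ∀ k : ℕ,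
  K ≤ k → (((Finset.range (2 ^ (k - ec d k))).filter (fun j =>
    (nE2 k (ec d k) j : ℝ) < c0 * 2 ^ ec d k / (k : ℝ) ^ 2)).card : ℝ) ≤ (2 : ℝ) ^ (U * (k : ℝ))

/-- explicit formula: a cell with few numbers `q m` makes the weighted sum over the zeros large -/
def BadZeroE2 : Prop := ∀ d : ℝ, 0 < d → d ≤ 1/100 → ∃ c0 : ℝ, 0 < c0 ∧ ∃ K : ℕ, ∀ k : ℕ, K ≤ k →
  ∃ (F : Finset ℂ) (c : ℂ → ℂ) (u : ℕ → ℝ) (Exc : Finset ℕ),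
  (∀ ρ ∈ F, riemannZeta ρ = 0 ∧ 0.6 < ρ.re ∧ |ρ.im| ≤ ((2 : ℝ) ^ k) ^ (1/2 + 2 * d) + 1) ∧
  (∀ ρ ∈ F, ‖c ρ‖ ≤ 2) ∧
  (∀ j < 2 ^ (k - ec d k), Real.log (2 ^ k) ≤ u j ∧ u j ≤ Real.log (2 ^ k) + 1) ∧
  (∀ j < 2 ^ (k - ec d k), ∀ j' < 2 ^ (k - ec d k), j ≠ j' → 1 / ((2 : ℝ) ^ k) ^ (1/2 + 2 * d) ≤ |u j - u j'|) ∧
  (Exc.card : ℝ) ≤ ((2 : ℝ) ^ k) ^ (0.12 + 5 * d) ∧
  ∀ j < 2 ^ (k - ec d k), j ∉ Exc → (nE2 k (ec d k) j : ℝ) < c0 * 2 ^ ec d k / (k : ℝ) ^ 2 →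
    1/2 * S1 k ≤ ‖∑ ρ ∈ F, (mz ρ : ℂ) * c ρ * DP gP (2 ^ em k) 2 ρ * Complex.exp ((ρ - 1) * (u j : ℂ))‖

/-- Theorem N with weight `X^(κ0 (β - 1))`, `κ0 > 1/2` -/
def ThmNk (κ0 : ℝ) : Prop := ∃ ε0 X0 : ℝ, 0 < ε0 ∧ ε0 ≤ 1/100 ∧ ∀ X : ℝ, X0 ≤ X → ∀ F : Finset ℂ,
  (∀ ρ ∈ F, riemannZeta ρ = 0 ∧ 1 - ε0 ≤ ρ.re ∧ |ρ.im| ≤ X ^ (0.6 : ℝ)) →
  ∑ ρ ∈ F, (mz ρ : ℝ) * X ^ (κ0 * (ρ.re - 1)) ≤ 1/16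

/-- Chebyshev -/
def S1Lower : Prop := ∃ c : ℝ, 0 < c ∧ ∃ K : ℕ, ∀ k : ℕ, K ≤ k → c / k ≤ S1 k

/-- one class of zeros, with `V ≤ |P(ρ)| ≤ 2 V`; `δ = ε0 / 10^8` -/
def ClassBoundE2 : Prop := ∀ ε0 δ d : ℝ, 0 < ε0 → ε0 ≤ 1/100 → δ = ε0 / 10 ^ 8 → 0 < d → d ≤ δ → ∃ X0 : ℝ,
  ∀ (X x V : ℝ) (Z : Finset ℂ) (c : ℂ → ℂ) (g : ℕ → ℂ) (N M : ℕ) (U : Finset ℝ), X0 ≤ X → ε0 ≤ x → x ≤ 0.4 + δ →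
  X ^ (0.495 : ℝ) / 4 ≤ M → (M : ℝ) ≤ X ^ (0.495 : ℝ) → X ^ (-1 : ℝ) ≤ V →
  InStrip Z (1 - x) (1 - x + δ) (X ^ (1/2 + 2 * d) + 1) → Spaced1 Z →
  (∀ n, ‖g n‖ ≤ (n.divisors.card : ℝ)) →
  X ^ δ / 2 ≤ N → (N : ℝ) ≤ X ^ (yy x / 2 + 45 * δ) → (∀ ρ ∈ Z, 1 / (16 * Real.log X) ≤ ‖DP g N 2 ρ‖) →
  (∀ ρ ∈ Z, V ≤ ‖DP gP M 2 ρ‖ ∧ ‖DP gP M 2 ρ‖ ≤ 2 * V) →
  (∀ ρ ∈ Z, ‖c ρ‖ ≤ Real.log X ^ 2) → (∀ u ∈ U, Real.log X ≤ u ∧ u ≤ Real.log X + 1) →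
  SpacedR U (1 / X ^ (1/2 + 2 * d)) →
  (∀ u ∈ U, 1 / Real.log X ^ 6 ≤ ‖∑ ρ ∈ Z, c ρ * DP gP M 2 ρ * Complex.exp ((ρ - 1) * (u : ℂ))‖) →
  (U.card : ℝ) ≤ X ^ (0.171 : ℝ)

end Pool.Agent.Helper60.KS
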